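import Pool.Agent.MP_fcd29e_an.H11.CS

/-! Levi forms: holomorphic changes of variable, squares of norms, Wirtinger coordinates. -/

set_option autoImplicit false

open Complex Set Filter Topology Metric Pool.Agent.MP_fcd29e_an.H81
  Pool.Agent.MP_fcd29e_an.H11
open scoped ContDiff ComplexConjugate

namespace Pool.Agent.MP_fcd29e_an.H60

namespace CLV

section general

variable {X Y : Type} [NormedAddCommGroup X] [NormedSpace ℝ X] [NormedSpace ℂ X]
  [IsScalarTower ℝ ℂ X] [NormedAddCommGroup Y] [NormedSpace ℝ Y] [NormedSpace ℂ Y]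
  [IsScalarTower ℝ ℂ Y] [CompleteSpace Y]

theorem cd {γ : X → Y} {p : X} (h : AnalyticAt ℂ γ p) (n : WithTop ℕ∞) : ContDiffAt ℝ n γ p :=
  (h.contDiffAt (n := n)).restrict_scalars ℝ

omit [CompleteSpace Y] in
theorem d1 {γ : X → Y} {p : X} (h : DifferentiableAt ℂ γ p) (v : X) :
    fderiv ℝ γ p v = fderiv ℂ γ p v := by
  rw [h.fderiv_restrictScalars ℝ]; rfl

theorem d2 {γ : X → Y} {p : X} (h : AnalyticAt ℂ γ p) (v w : X) :
    fderiv ℝ (fderiv ℝ γ) p v w = fderiv ℂ (fderiv ℂ γ) p v w := by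
  have hr : DifferentiableAt ℝ (fderiv ℝ γ) p :=
    ((cd h 2).fderiv_right (m := 1) (by norm_num)).differentiableAt (by simp)
  have hc : DifferentiableAt ℂ (fderiv ℂ γ) p := h.fderiv.differentiableAt
  have e1 : fderiv ℝ (fun q => fderiv ℝ γ q w) p v = fderiv ℝ (fderiv ℝ γ) p v w := by
    rw [fderiv_clm_apply hr (differentiableAt_const _)]; simp
  have e2 : fderiv ℂ (fun q => fderiv ℂ γ q w) p v = fderiv ℂ (fderiv ℂ γ) p v w := by
    rw [fderiv_clm_apply hc (differentiableAt_const _)]; simp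
  have e3 : (fun q => fderiv ℝ γ q w) =ᶠ[𝓝 p] fun q => fderiv ℂ γ q w :=
    h.eventually_analyticAt.mono fun q hq => d1 hq.differentiableAt w
  rw [← e1, ← e2, e3.fderiv_eq]
  exact d1 (hc.clm_apply (differentiableAt_const _)) v

theorem hol (hHS : SHS) (f : Y → ℝ) (γ : X → Y) (p v : X) (h : AnalyticAt ℂ γ p)
    (hf : ContDiffAt ℝ 2 f (γ p)) :
    lev (fun q => f (γ q)) p v = lev f (γ p) (fderiv ℂ γ p v) ∧
      fderiv ℝ (fun q => f (γ q)) p v = fderiv ℝ f (γ p) (fderiv ℂ γ p v) := by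
  constructor
  · unfold lev
    rw [hHS.chain X Y f γ p v (cd h 2) hf, hHS.chain X Y f γ p (I • v) (cd h 2) hf,
      d1 h.differentiableAt, d1 h.differentiableAt, d2 h, d2 h]
    have e : fderiv ℂ (fderiv ℂ γ) p (I • v) (I • v) = -fderiv ℂ (fderiv ℂ γ) p v v := by
      simp only [map_smul, ContinuousLinearMap.smul_apply, smul_smul, I_mul_I, neg_smul, one_smul]
    rw [e, map_neg, map_smul (fderiv ℂ γ p)]
    ring
  · have h1 : DifferentiableAt ℝ f (γ p) := hf.differentiableAt (by simp)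
    have h2 : DifferentiableAt ℝ γ p := (cd h 1).differentiableAt (by simp)
    rw [fderiv_fun_comp p h1 h2, ContinuousLinearMap.comp_apply, d1 h.differentiableAt]

theorem scal (f : X → ℝ) (p v : X) (a : ℂ) : lev f p (a • v) = ‖a‖ ^ 2 * lev f p v := by
  have e1 : a • v = a.re • v + a.im • (I • v) := by
    conv_lhs => rw [← re_add_im a]
    rw [add_smul, mul_smul, ← Complex.coe_algebraMap, algebraMap_smul, algebraMap_smul]
  have e2 : I • a • v = a.re • (I • v) - a.im • v := by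
    rw [e1, smul_add, smul_comm I a.re, smul_comm I a.im, smul_smul I I, I_mul_I, neg_smul,
      one_smul, smul_neg, sub_eq_add_neg]
  unfold lev hs
  rw [e2, e1, Complex.sq_norm, normSq_apply]
  simp only [map_add, map_sub, map_smul, ContinuousLinearMap.add_apply,
    ContinuousLinearMap.sub_apply, ContinuousLinearMap.smul_apply, smul_eq_mul]
  ring

end general

theorem lev_re (y u : ℂ) : lev (fun w : ℂ => w.re) y u = 0 := by
  have : fderiv ℝ (fun w : ℂ => w.re) = fun _ => reCLM := by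
    funext w; exact reCLM.fderiv
  unfold lev hs
  rw [this]; simp

section nsq

variable {β : Type} [Fintype β]

/-- The polar form of the square of the norm. -/
noncomputable def Bq (β : Type) [Fintype β] : (β → ℂ) →L[ℝ] (β → ℂ) →L[ℝ] ℝ :=
  ∑ k, (innerSL ℝ : ℂ →L[ℝ] ℂ →L[ℝ] ℝ).bilinearComp
    (ContinuousLinearMap.proj (R := ℝ) (φ := fun _ : β => ℂ) k)
    (ContinuousLinearMap.proj (R := ℝ) (φ := fun _ : β => ℂ) k)

theorem Bq_apply (y u : β → ℂ) : Bq β y u = (ip u y).re := by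
  simp [Bq, ip, Complex.inner]

theorem nsq_eq (y : β → ℂ) : nsq y = (ip y y).re := by
  simp only [nsq, ip, re_sum]
  refine Finset.sum_congr rfl fun k _ => ?_
  rw [Complex.mul_conj, Complex.normSq_eq_norm_sq, ofReal_re]

theorem Bq_symm (y u : β → ℂ) : Bq β y u = Bq β u y := by
  simp only [Bq_apply, ip, re_sum]
  refine Finset.sum_congr rfl fun k _ => ?_
  simp only [mul_re, conj_re, conj_im]; ring

theorem nsq_fun : (nsq : (β → ℂ) → ℝ) = fun y => Bq β y y := by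
  funext y; rw [Bq_apply, nsq_eq]

theorem cd_nsq (n : WithTop ℕ∞) : ContDiff ℝ n (nsq : (β → ℂ) → ℝ) := by
  rw [nsq_fun]
  exact (Bq β).contDiff.clm_apply contDiff_id

theorem fderiv_nsq : fderiv ℝ (nsq : (β → ℂ) → ℝ) = fun y => ((2 : ℝ) • Bq β) y := by
  funext y
  have h := ((Bq β).hasFDerivAt (x := y)).clm_apply (hasFDerivAt_id y)
  rw [nsq_fun]
  refine h.fderiv.trans ?_
  ext u
  simp only [ContinuousLinearMap.add_apply, ContinuousLinearMap.comp_apply,
    ContinuousLinearMap.flip_apply, ContinuousLinearMap.smul_apply, smul_eq_mul, id,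
    ContinuousLinearMap.coe_id']
  rw [Bq_symm u y]; ring

theorem hs_nsq (y u : β → ℂ) : hs nsq y u = 2 * nsq u := by
  unfold hs
  rw [fderiv_nsq, ContinuousLinearMap.fderiv, nsq_eq, ← Bq_apply]
  simp

theorem nsq_smul (c : ℂ) (u : β → ℂ) : nsq (c • u) = ‖c‖ ^ 2 * nsq u := by
  simp only [nsq, Pi.smul_apply, smul_eq_mul, norm_mul, mul_pow, Finset.mul_sum]

theorem lev_nsq (y u : β → ℂ) : lev nsq y u = 4 * nsq u := by
  unfold lev
  rw [hs_nsq, hs_nsq, nsq_smul, norm_I]; ring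

theorem nsq_nonneg (u : β → ℂ) : 0 ≤ nsq u := Finset.sum_nonneg fun _ _ => sq_nonneg _

theorem nsq_pos {u : β → ℂ} (h : u ≠ 0) : 0 < nsq u := by
  obtain ⟨k, hk⟩ := Function.ne_iff.1 h
  exact Finset.sum_pos' (fun _ _ => sq_nonneg _)
    ⟨k, Finset.mem_univ k, pow_pos (norm_pos_iff.2 hk) 2⟩

theorem nsq_sub (a b : β → ℂ) (c : ℂ) : nsq (a - c • b) =
    nsq a - 2 * (c.re * (ip a b).re + c.im * (ip a b).im) + (c.re ^ 2 + c.im ^ 2) * nsq b := by
  simp only [nsq, ip, re_sum, im_sum, Finset.mul_sum, ← Finset.sum_add_distrib,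
    ← Finset.sum_sub_distrib]
  refine Finset.sum_congr rfl fun k _ => ?_
  simp only [Complex.sq_norm, normSq_apply, Pi.sub_apply, Pi.smul_apply, smul_eq_mul, sub_re,
    sub_im, mul_re, mul_im, conj_re, conj_im]
  ring

theorem ip_I (a b : β → ℂ) : (ip (I • a) b).re = -(ip a b).im := by
  simp only [ip, re_sum, im_sum, ← Finset.sum_neg_distrib]
  refine Finset.sum_congr rfl fun k _ => ?_
  simp only [Pi.smul_apply, smul_eq_mul, mul_re, mul_im, conj_re, conj_im, I_re, I_im]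
  ring

end nsq

section kit

variable {N : ℕ}

theorem sum_dz (g : E N → ℂ) (z v : E N) :
    ∑ j, dz j g z * v j = (fderiv ℝ g z v - I * fderiv ℝ g z (I • v)) / 2 := by
  rw [fderiv_eq, fderiv_eq, Finset.mul_sum, ← Finset.sum_sub_distrib, Finset.sum_div]
  refine Finset.sum_congr rfl fun j _ => ?_
  simp only [PiLp.smul_apply, smul_eq_mul, map_mul, conj_I]
  linear_combination (v j * dz j g z - conj (v j) * dzb j g z) / 2 * I_sq

theorem sum_dzb (g : E N → ℂ) (z v : E N) :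
    ∑ j, dzb j g z * conj (v j) = (fderiv ℝ g z v + I * fderiv ℝ g z (I • v)) / 2 := by
  rw [fderiv_eq, fderiv_eq, Finset.mul_sum, ← Finset.sum_add_distrib, Finset.sum_div]
  refine Finset.sum_congr rfl fun j _ => ?_
  simp only [PiLp.smul_apply, smul_eq_mul, map_mul, conj_I]
  linear_combination -(v j * dz j g z - conj (v j) * dzb j g z) / 2 * I_sq

theorem fd_cx {ρ : E N → ℝ} {z : E N} (h : DifferentiableAt ℝ ρ z) (u : E N) :
    fderiv ℝ (fun w => (ρ w : ℂ)) z u = (fderiv ℝ ρ z u : ℝ) := by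
  have h2 := (ofRealCLM.hasFDerivAt.comp z h.hasFDerivAt).fderiv
  exact congrArg (fun A : E N →L[ℝ] ℂ => A u) h2

theorem fd2_cx {ρ : E N → ℝ} {z : E N} (h : ContDiffAt ℝ ∞ ρ z) (u w : E N) :
    fderiv ℝ (fun y => fderiv ℝ (fun x => (ρ x : ℂ)) y u) z w =
      (fderiv ℝ (fderiv ℝ ρ) z w u : ℝ) := by
  have h2 : ContDiffAt ℝ 2 ρ z := h.of_le (WithTop.coe_le_coe.2 (le_top : (2 : ℕ∞) ≤ ⊤))
  have hr : DifferentiableAt ℝ (fderiv ℝ ρ) z :=
    (h2.fderiv_right (m := 1) (by norm_num)).differentiableAt (by simp)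
  have e : (fun y => fderiv ℝ (fun x => (ρ x : ℂ)) y u) =ᶠ[𝓝 z]
      fun y => ((fderiv ℝ ρ y u : ℝ) : ℂ) :=
    (h2.eventually (by simp)).mono fun y hy => fd_cx (hy.differentiableAt (by simp)) u
  rw [e.fderiv_eq, fd_cx (hr.clm_apply (differentiableAt_const _)),
    fderiv_clm_apply hr (differentiableAt_const _)]
  simp

theorem kit (ρ : E N → ℝ) (z v : E N) (h : ContDiffAt ℝ ∞ ρ z) :
    (∑ j, ∑ k, dz j (dzb k fun w => (ρ w : ℂ)) z * v j * conj (v k)).re = lev ρ z v / 4 ∧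
    (∑ j, dz j (fun w => (ρ w : ℂ)) z * v j = 0 →
      fderiv ℝ ρ z v = 0 ∧ fderiv ℝ ρ z (I • v) = 0) := by
  have hc : ContDiffAt ℝ ∞ (fun w => (ρ w : ℂ)) z := contDiffAt_cx h
  constructor
  · have e : ∑ j, ∑ k, dz j (dzb k fun w => (ρ w : ℂ)) z * v j * conj (v k) =
        ((∑ k, dzb k (fun y => fderiv ℝ (fun x => (ρ x : ℂ)) y v) z * conj (v k)) -
          I * ∑ k, dzb k (fun y => fderiv ℝ (fun x => (ρ x : ℂ)) y (I • v)) z * conj (v k)) / 2 := by
      rw [Finset.sum_comm, Finset.mul_sum, ← Finset.sum_sub_distrib, Finset.sum_div]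
      refine Finset.sum_congr rfl fun k _ => ?_
      rw [← Finset.sum_mul, sum_dz, fderiv_dzb k hc, fderiv_dzb k hc]
      ring
    rw [e, sum_dzb, sum_dzb, fd2_cx h, fd2_cx h, fd2_cx h, fd2_cx h]
    unfold lev hs
    simp only [div_ofNat_re, div_ofNat_im, sub_re, add_re, add_im, mul_re, mul_im, I_re, I_im,
      ofReal_re, ofReal_im]
    ring
  · intro h0
    have hd : DifferentiableAt ℝ ρ z := h.differentiableAt (by simp)
    rw [sum_dz, fd_cx hd, fd_cx hd] at h0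
    have h1 := congrArg re h0
    have h2 := congrArg im h0
    simp only [div_ofNat_re, div_ofNat_im, sub_re, sub_im, mul_re, mul_im, I_re, I_im,
      ofReal_re, ofReal_im, zero_re, zero_im] at h1 h2
    constructor <;> linarith

end kit

theorem nsqF (hHS : SHS) (X β : Type) [NormedAddCommGroup X] [NormedSpace ℝ X] [NormedSpace ℂ X]
    [IsScalarTower ℝ ℂ X] [Fintype β] (F : X → β → ℂ) (p v : X) (h : AnalyticAt ℂ F p) :
    Sm (fun q => nsq (F q)) p ∧ lev (fun q => nsq (F q)) p v = 4 * nsq (fderiv ℂ F p v) ∧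
      fderiv ℝ (fun q => nsq (F q)) p v = 2 * (ip (fderiv ℂ F p v) (F p)).re := by
  obtain ⟨h1, h2⟩ := hol hHS nsq F p v h (cd_nsq 2).contDiffAt
  refine ⟨h.eventually_analyticAt.mono fun q hq => (cd_nsq ∞).contDiffAt.comp q (cd hq ∞), ?_, ?_⟩
  · rw [h1, lev_nsq]
  · rw [h2, fderiv_nsq, ← Bq_apply]
    simp

theorem logn (hHS : SHS) (β : Type) [Fintype β] (P : ℂ → β → ℂ) (z : ℂ) (h : AnalyticAt ℂ P z)
    (h0 : P z ≠ 0) : lap (fun y => Real.log (nsq (P y))) z =
      4 * nsq (deriv P z - (ip (deriv P z) (P z) / (nsq (P z) : ℝ)) • P z) / nsq (P z) := by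
  have hp := nsq_pos h0
  have hN : ContDiffAt ℝ 2 (fun y => nsq (P y)) z := (cd_nsq 2).contDiffAt.comp z (cd h 2)
  have hl : ContDiffAt ℝ 2 Real.log (nsq (P z)) := Real.contDiffAt_log.2 hp.ne'
  have a1 := nsqF hHS ℂ β P z 1 h
  have a2 := (nsqF hHS ℂ β P z (I • 1) h).2.2
  have e1 : fderiv ℂ P z 1 = deriv P z := rfl
  rw [map_smul (fderiv ℂ P z), e1, ip_I] at a2
  rw [e1] at a1
  have c1 := hHS.comp ℂ (fun y => nsq (P y)) Real.log z 1 hN hl
  have c2 := hHS.comp ℂ (fun y => nsq (P y)) Real.log z (I • 1) hN hl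
  have a3 := a1.2.1
  unfold lev at a3
  unfold lap lev
  rw [c1, c2, a1.2.2, a2, Real.deriv_log', deriv_inv', nsq_sub, div_ofReal_re, div_ofReal_im]
  have a4 : hs (fun q => nsq (P q)) z (I • 1) =
      4 * nsq (deriv P z) - hs (fun q => nsq (P q)) z 1 := by linarith
  rw [a4]
  field_simp
  ring

end CLV

theorem slv (hHS : SHS) : SLV where
  hol := fun _ _ _ _ _ _ _ _ _ _ _ f γ p v h hf => CLV.hol hHS f γ p v h hf
  re := fun X _ _ _ _ h p v ha => by
    obtain ⟨h1, h2⟩ := CLV.hol hHS (fun w : ℂ => w.re) h p v ha reCLM.contDiff.contDiffAt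
    refine ⟨ha.eventually_analyticAt.mono fun q hq =>
      reCLM.contDiff.contDiffAt.comp q (CLV.cd hq ∞), ?_, ?_⟩
    · rw [h1, CLV.lev_re]
    · rw [h2]
      exact congrArg (fun A : ℂ →L[ℝ] ℝ => A (fderiv ℂ h p v)) (reCLM.fderiv (x := h p))
  nsq := fun X β _ _ _ _ _ F p v h => CLV.nsqF hHS X β F p v h
  scal := fun _ _ _ _ _ f p v a _ => CLV.scal f p v a
  one := fun f γ z h hf => by
    unfold lap
    rw [(CLV.hol hHS f γ z 1 h hf).1, ← CLV.scal, smul_eq_mul, mul_one]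
    rfl
  kit := fun _ ρ z L h => CLV.kit ρ z (WithLp.toLp 2 L) h
  logn := fun β _ P z h h0 => by
    have hp := CLV.nsq_pos h0
    rw [CLV.logn hHS β P z h h0]
    refine ⟨div_nonneg (mul_nonneg (by norm_num) (CLV.nsq_nonneg _)) hp.le, fun hI => ?_⟩
    exact div_pos (mul_pos (by norm_num) (CLV.nsq_pos (sub_ne_zero.2 (hI _)))) hp

end Pool.Agent.MP_fcd29e_an.H60
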