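import Pool.Agent.MP_fcd29e_an.H60.POIb

/-! The Poincaré inequality on the concave side. -/

set_option autoImplicit false

namespace Pool.Agent.MP_fcd29e_an.H60

open Pool.Agent.MP_fcd29e_an.H81 MeasureTheory Complex Set Filter Topology Metric
open scoped ContDiff ComplexConjugate ENNReal NNReal

noncomputable section

variable {N : ℕ} {ρ : E N → ℝ} {κ : ℝ → ℝ} {k : ℕ}

theorem pair0 {K : Set (E N)} (hK : IsCompact K) {f : ℕ → E N → ℂ} {χ : E N → ℂ} {M : ℝ}
    (hf : ∀ i, AEStronglyMeasurable (f i) (volume.restrict K)) (h0 : ∀ z ∉ K, χ z = 0)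
    (hM : ∀ z, ‖χ z‖ ≤ M)
    (h : Tendsto (fun i => eLpNorm (f i) 2 (volume.restrict K)) atTop (𝓝 0)) :
    Tendsto (fun i => ∫ z, f i z * χ z) atTop (𝓝 0) := by
  have h1 := ENNReal.Tendsto.const_mul (a := ENNReal.ofReal M * volume K ^ (1 / 2 : ℝ)) h
    (Or.inr (ENNReal.mul_ne_top ENNReal.ofReal_ne_top
      (ENNReal.rpow_ne_top_of_nonneg (by norm_num) hK.measure_lt_top.ne)))
  rw [mul_zero] at h1
  have h2 := tendsto_of_tendsto_of_tendsto_of_le_of_le tendsto_const_nhds h1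
    (fun _ => zero_le) fun i => pair (hf i) h0 hM
  have h3 := (ENNReal.tendsto_toReal ENNReal.zero_ne_top).comp h2
  rw [tendsto_zero_iff_norm_tendsto_zero]
  simpa [Function.comp_def] using h3

theorem strong (L : Lv0) (hN : 1 ≤ N) {U K : Set (E N)} (hU : IsOpen U) (hK : IsCompact K)
    (hKU : K ⊆ U) {u : ℕ → E N → ℂ} {c : ℂ} (hu : ∀ i, ContDiffOn ℝ ∞ (u i) U)
    (hb : ∀ K' ⊆ U, IsCompact K' → ∃ C : ℝ≥0, ∀ i, eLpNorm (u i) 2 (volume.restrict K') ^ 2 ≤ C)
    (hs : ∀ K' ⊆ U, IsCompact K' → ∀ l,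
      Tendsto (fun i => eLpNorm (dzb l (u i)) 2 (volume.restrict K')) atTop (𝓝 0))
    (hw : ∀ χ, Test U χ → Tendsto (fun i => ∫ z, u i z * χ z) atTop (𝓝 (c * ∫ z, χ z))) :
    Tendsto (fun i => eLpNorm (fun z => u i z - c) 2 (volume.restrict K)) atTop (𝓝 0) := by
  obtain ⟨δ, hδ, hδU⟩ := hK.exists_cthickening_subset_open hU hKU
  have hK3 : IsCompact (cthickening δ K) := hK.cthickening
  generalize hdef : cthickening δ K = K3 at hδU hK3
  have hball : ∀ x ∈ K, closedBall x (2 * (δ / 2)) ⊆ K3 := fun x hx => by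
    rw [mul_div_cancel₀ _ two_ne_zero, ← hdef]; exact closedBall_subset_cthickening hx δ
  have hfar : ∀ x ∈ K, ∀ y ∉ K3, 2 * (δ / 2) ≤ ‖x - y‖ := fun x hx y hy => by
    by_contra h
    exact hy (hball x hx (by rw [mem_closedBall, dist_comm, dist_eq_norm]; exact (not_le.1 h).le))
  have hr : 0 < δ / 2 := half_pos hδ
  generalize δ / 2 = r at hball hfar hr
  obtain ⟨-, hk, he, -⟩ := L.bm1 N hN
  obtain ⟨hη, hη1, hη2⟩ := he r hr
  have hm3 := hK3.measurableSet
  have : IsFiniteMeasure (volume.restrict K) := isFiniteMeasure_restrict.2 hK.measure_lt_top.ne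
  have : IsFiniteMeasure (volume.restrict K3) := isFiniteMeasure_restrict.2 hK3.measure_lt_top.ne
  have hd : ∀ i l, ContinuousOn (dzb l (u i)) K3 := fun i l z hz =>
    (contDiffAt_dzb l ((hu i).contDiffAt (hU.mem_nhds (hδU hz)))).continuousAt.continuousWithinAt
  have hd2 : ∀ i l, MemLp (K3.indicator (dzb l (u i))) 2 volume := fun i l => by
    obtain ⟨B, hB⟩ := hK3.exists_bound_of_continuousOn (hd i l)
    exact (memLp_indicator_iff_restrict hm3).2 (MemLp.of_bound
      ((hd i l).aestronglyMeasurable hm3) B (ae_restrict_of_forall_mem hm3 hB))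
  have hY := fun i l => (L.yg N).1 (kk l r) _ ((hk l).2.2.2.2.2 r hr).2.1 (hd2 i l)
  set b : ℕ → Fin N → E N → ℂ :=
    fun i l x => ∫ y, kk l r (x - y) * K3.indicator (dzb l (u i)) y with hbdef
  have hb0 : ∀ l, Tendsto (fun i => eLpNorm (b i l) 2 (volume.restrict K)) atTop (𝓝 0) := by
    intro l
    have h1 := ENNReal.Tendsto.const_mul (a := eLpNorm (kk l r) 1 volume) (hs K3 hδU hK3 l)
      (Or.inr (memLp_one_iff_integrable.2 ((hk l).2.2.2.2.2 r hr).2.1).2.ne)
    rw [mul_zero] at h1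
    refine tendsto_of_tendsto_of_tendsto_of_le_of_le tendsto_const_nhds h1 (fun _ => zero_le)
      fun i => (eLpNorm_restrict_le _ _ _ _).trans ((hY i l).2.1.trans (le_of_eq ?_))
    rw [eLpNorm_indicator_eq_eLpNorm_restrict hm3]
  have hbm : ∀ i l, AEStronglyMeasurable (b i l) (volume.restrict K) := fun i l =>
    (hY i l).1.1.restrict
  set a : ℕ → E N → ℂ := fun i => (fun z => u i z - c) - ∑ l, b i l with hadef
  have hum : ∀ i, AEStronglyMeasurable (fun z => u i z - c) (volume.restrict K) := fun i =>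
    (((hu i).continuousOn.mono hKU).sub continuousOn_const).aestronglyMeasurable hK.measurableSet
  have hbs : ∀ i, AEStronglyMeasurable (∑ l, b i l) (volume.restrict K) := fun i =>
    Finset.aestronglyMeasurable_sum _ fun l _ => hbm i l
  have ham : ∀ i, AEStronglyMeasurable (a i) (volume.restrict K) := fun i => (hum i).sub (hbs i)
  have hax : ∀ i, ∀ x ∈ K, a i x = (∫ y, u i y * eta r (x - y)) - c := by
    intro i x hx
    have h1 := (L.bm2 N hN).2.1 U (u i) x r hU (hu i) hr ((hball x hx).trans hδU)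
    have h2 : ∀ l, ∫ y, kk l r (x - y) * dzb l (u i) y = b i l x := fun l =>
      integral_congr_ae (ae_of_all _ fun y => by
        by_cases hy : y ∈ K3
        · simp only [indicator_of_mem hy]
        · simp only [((((hk l).2.2.2.2.2 r hr).2.2 (x - y)).2.1 (hfar x hx y hy)).2, zero_mul])
    simp only [h2, Mo] at h1
    simp only [hadef, Pi.sub_apply, Finset.sum_apply, mul_comm (u i _)]
    rw [h1]; ring
  obtain ⟨M, hM⟩ := hη.1.continuous.bounded_above_of_compact_support hη.2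
  obtain ⟨C, hC⟩ := hb K3 hδU hK3
  have hfin : ENNReal.ofReal M * volume K3 ^ (1 / 2 : ℝ) * (C : ℝ≥0∞) ^ ((2 : ℕ) : ℝ)⁻¹ ≠ ⊤ :=
    ENNReal.mul_ne_top (ENNReal.mul_ne_top ENNReal.ofReal_ne_top
      (ENNReal.rpow_ne_top_of_nonneg (by norm_num) hK3.measure_lt_top.ne))
      (ENNReal.rpow_ne_top_of_nonneg (by norm_num) ENNReal.coe_ne_top)
  have hbd : ∀ i, ∀ x ∈ K, ‖∫ y, u i y * eta r (x - y)‖ₑ ≤
      ENNReal.ofReal M * volume K3 ^ (1 / 2 : ℝ) * (C : ℝ≥0∞) ^ ((2 : ℕ) : ℝ)⁻¹ := by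
    intro i x hx
    refine (pair (((hu i).continuousOn.mono hδU).aestronglyMeasurable hm3)
      (fun y hy => (hη2 _).2.2.1 (hfar x hx y hy)) fun y => hM _).trans ?_
    rw [← ENNReal.pow_rpow_inv_natCast two_ne_zero (eLpNorm (u i) 2 (volume.restrict K3))]
    gcongr
    exact hC i
  generalize ENNReal.ofReal M * volume K3 ^ (1 / 2 : ℝ) * (C : ℝ≥0∞) ^ ((2 : ℕ) : ℝ)⁻¹ = D
    at hfin hbd
  have ha0 : Tendsto (fun i => eLpNorm (a i) 2 (volume.restrict K)) atTop (𝓝 0) := by
    rw [← tz]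
    have h1 := tendsto_lintegral_of_dominated_convergence' (μ := volume.restrict K)
      (F := fun i x => ENNReal.ofReal (‖a i x‖ ^ 2)) (f := fun _ => 0)
      (fun _ => ENNReal.ofReal ((D.toReal + ‖c‖) ^ 2))
      (fun i => ((ham i).norm.aemeasurable.pow_const 2).ennreal_ofReal)
      (fun i => ae_restrict_of_forall_mem hK.measurableSet fun x hx => ?_)
      (by rw [lintegral_const]; exact ENNReal.mul_ne_top ENNReal.ofReal_ne_top (measure_ne_top _ _))
      (ae_restrict_of_forall_mem hK.measurableSet fun x hx => ?_)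
    · simpa only [lintegral_const, zero_mul] using h1
    · refine ENNReal.ofReal_le_ofReal (pow_le_pow_left₀ (norm_nonneg _) ?_ 2)
      rw [hax i x hx]
      refine (norm_sub_le _ _).trans (add_le_add_left ?_ _)
      simpa using ENNReal.toReal_mono hfin (hbd i x hx)
    · have h2 : tsupport (fun y => eta r (x - y)) ⊆ closedBall x (2 * r) :=
        closure_minimal (fun y hy => by
          by_contra h
          refine hy ((hη2 _).2.2.1 ?_)
          rw [mem_closedBall, dist_comm, dist_eq_norm] at h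
          exact (not_le.1 h).le) isClosed_closedBall
      have h3 := hw (fun y => eta r (x - y)) ⟨hη.1.comp (contDiff_const.sub contDiff_id),
        (isCompact_closedBall x _).of_isClosed_subset (isClosed_tsupport _) h2,
        h2.trans ((hball x hx).trans hδU)⟩
      rw [integral_sub_left_eq_self (eta r) volume x, hη1, mul_one] at h3
      have h4 := ENNReal.tendsto_ofReal ((h3.sub_const c).norm.pow 2)
      simp only [sub_self, norm_zero, zero_pow two_ne_zero, ENNReal.ofReal_zero] at h4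
      simpa only [hax _ x hx] using h4
  have h5 := ha0.add (tendsto_finsetSum Finset.univ fun l _ => hb0 l)
  simp only [Finset.sum_const_zero, add_zero] at h5
  refine tendsto_of_tendsto_of_tendsto_of_le_of_le tendsto_const_nhds h5 (fun _ => zero_le)
    fun i => ?_
  have h6 : (fun z => u i z - c) = a i + ∑ l, b i l := by rw [hadef, sub_add_cancel]
  simp only
  rw [h6]
  exact (eLpNorm_add_le (ham i) (hbs i) one_le_two).trans
    (add_le_add_right (eLpNorm_sum_le (fun l _ => hbm i l) one_le_two) _)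

/-- Row POI. -/
theorem poi (L : Lv0) (he : StmtEst) (h1 : StmtW1) (h2 : StmtW2) (hl : StmtLIO) : StmtPOI := by
  intro N hN ρ φ hρ hφ κ hκ j k
  by_contra h
  have hN1 : 1 ≤ N := by omega
  choose u hu hh n1 n2 n3 using seq (k := k) L hρ hκ j h
  obtain ⟨-, -, hS1, hS2, -⟩ := (L.t3.2 N).1 κ hκ
  obtain ⟨-, hO, -, hC, hρm, -⟩ := L.c1 N ρ hρ
  have T := L.t1 N _ hO hC.1
  have hOE : Op ρ ⊆ E0 N := fun z hz => hz.1
  have hJ : ∀ i, JA ρ κ k (u i) ≤ 1 := fun i => by
    rw [JA_eq L hρ hκ (hu i).continuousOn, n1, ENNReal.ofReal_one]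
  obtain ⟨W, s, hs, hW1, hW2, hW3, hW⟩ :=
    weak L hN1 hρ hκ (-j) u (fun i => (hu i).continuousOn) hh hJ
  have hd : ∀ i l, ContinuousOn (dzb l (u i)) (E0 N) := fun i l z hz =>
    (contDiffAt_dzb l ((hu i).contDiffAt (isOpen_E0.mem_nhds hz))).continuousAt.continuousWithinAt
  have hJ0 : ∀ l, Tendsto (fun i => JA ρ κ k (dzb l (u (s i)))) atTop (𝓝 0) := fun l => by
    have h3 := ENNReal.tendsto_ofReal
      (tendsto_one_div_add_atTop_nhds_zero_nat.comp hs.tendsto_atTop)
    rw [ENNReal.ofReal_zero] at h3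
    refine tendsto_of_tendsto_of_tendsto_of_le_of_le tendsto_const_nhds h3 (fun _ => zero_le)
      fun i => ?_
    simp only [JA_eq L hρ hκ (hd _ l)]
    exact ENNReal.ofReal_le_ofReal (n2 _ l)
  have hsm : ∀ K ⊆ Op ρ, IsCompact K → ∀ l,
      Tendsto (fun i => eLpNorm (dzb l (u (s i))) 2 (volume.restrict K)) atTop (𝓝 0) := by
    intro K hK hKc l
    obtain ⟨C, hC'⟩ := loc2 (k := k) L hρ hκ (-j) (0 - 1) hKc hK
    have h3 := ENNReal.Tendsto.const_mul (a := C) (hJ0 l) (Or.inr ENNReal.coe_ne_top)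
    rw [mul_zero] at h3
    rw [← tz]
    exact tendsto_of_tendsto_of_tendsto_of_le_of_le tendsto_const_nhds h3 (fun _ => zero_le)
      fun i => hC' _ (((L.pf N).1 _ _ _ _ isOpen_E0 cone_E0 (hh _)).1 l).2
  have hI : ∀ (f χ : E N → ℂ), Test (Op ρ) χ → ∫ z in Op ρ, f z * χ z = ∫ z, f z * χ z :=
    fun f χ hχ => setIntegral_eq_integral_of_forall_compl_eq_zero
      fun z hz => by rw [test0 hχ hz, mul_zero]
  obtain ⟨V, hV, hVW⟩ := h1 N hN1 _ W hO hC.1 hW1 fun l ψ hψ => by
    obtain ⟨M, hM⟩ := hψ.1.continuous.bounded_above_of_compact_support hψ.2.1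
    have h3 := (pair0 hψ.2.1 (fun i => ((hd (s i) l).mono (hψ.2.2.trans hOE)).aestronglyMeasurable
      (isClosed_tsupport ψ).measurableSet) (fun z hz => image_eq_zero_of_notMem_tsupport hz) hM
      (hsm _ hψ.2.2 hψ.2.1 l)).neg
    rw [neg_zero] at h3
    refine tendsto_nhds_unique (hW _ ((T.2.2.2.1 ψ hψ).2.2.1 l).2) (h3.congr fun i => ?_)
    rw [← hI _ _ hψ]
    exact (((T.2.2.2.2.2.1 _ ((hu _).mono hOE)).2 l).1 ψ hψ).symm
  have T2 := (L.t2 N (-j) 0).1 _ hO hC
  obtain ⟨c, hc, hc0⟩ := hl N hN ρ φ hρ hφ j k V hV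
    (T2.2.1 _ (T2.2.2.1 _ _ (T2.1 _ hW2) hVW) hV.1.continuousOn)
    ((T.1 _ hW3).2.2.2.2.2.1 _ (hVW.mono fun z hz h => by rw [hz h]))
  obtain ⟨r₀, hr₀, hE⟩ := he N ρ φ hρ hφ κ hκ
  obtain ⟨C, hE⟩ := hE k 0 j
  have hK : IsCompact (Sh N ∩ {z | r₀ ≤ ρ z}) := hS1.of_isClosed_subset
    ((hρ.smooth.continuousOn.mono fun z hz h => hS2 (h ▸ hz)).preimage_isClosed_of_isClosed
      hS1.isClosed isClosed_Ici) inter_subset_left
  have h4 := strong L hN1 hO hK (fun z hz => ⟨fun h => hS2 (h ▸ hz.1), hr₀.trans_le hz.2⟩)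
    (u := fun i => u (s i)) (c := c) (fun i => (hu _).mono hOE) (fun K hK hKc => by
      obtain ⟨C, hC'⟩ := loc2 (k := k) L hρ hκ (-j) 0 hKc hK
      refine ⟨C, fun i => ?_⟩
      rw [← lsq]
      exact (hC' _ (hh _)).trans (by simpa using mul_le_mul_right (hJ _) (C : ℝ≥0∞))) hsm
    fun χ hχ => by
      have h3 := hW χ hχ
      have h5 : ∫ z in Op ρ, W z * χ z = c * ∫ z, χ z := by
        rw [← integral_const_mul, ← hI (fun _ => c) χ hχ]
        exact setIntegral_congr_ae hO.measurableSet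
          (hVW.mono fun z hz h => by rw [hz h, hc z h])
      simpa only [h5, hI _ χ hχ] using h3
  rw [← tz] at h4
  obtain ⟨B, hB⟩ := kapB (N := N) L hκ
  have h5 := ENNReal.Tendsto.const_mul (a := (C : ℝ≥0∞))
    ((tendsto_finsetSum Finset.univ fun l _ => hJ0 l).add
      (ENNReal.Tendsto.const_mul (a := ENNReal.ofReal B) h4 (Or.inr ENNReal.ofReal_ne_top)))
    (Or.inr ENNReal.coe_ne_top)
  simp only [Finset.sum_const_zero, mul_zero, add_zero] at h5
  refine absurd (ge_of_tendsto' (b := 1) h5 fun i => ?_) (by norm_num)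
  have hv : ContDiffOn ℝ ∞ (fun z => u (s i) z - c) (E0 N) := (hu _).sub contDiffOn_const
  have h6 := hE _ (((h2 N hN1).2.2 ρ hρ).2 _ hv) fun a ha z hz =>
    hom_sub (hh (s i)) hc0 a ha z hz.1
  have h7 : (1 : ℝ≥0∞) ≤ JA ρ κ k fun z => u (s i) z - c := by
    rw [JA_eq L hρ hκ hv.continuousOn]
    exact ENNReal.one_le_ofReal.2 (n3 _ c hc0)
  refine h7.trans (h6.trans (mul_le_mul_right (add_le_add (le_of_eq ?_) ?_) _))
  · refine Finset.sum_congr rfl fun l _ => setLIntegral_congr_fun hO.measurableSet fun z hz => ?_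
    rw [dzb_sub l (ContDiffAt.da ((hu _).contDiffAt (isOpen_E0.mem_nhds hz.1)))
      (differentiableAt_const c), dzb_const, sub_zero]
  · rw [← lintegral_const_mul' _ _ ENNReal.ofReal_ne_top,
      ← Measure.restrict_restrict hS1.measurableSet, ← lintegral_indicator hS1.measurableSet]
    refine lintegral_mono fun z => ?_
    by_cases hz : z ∈ Sh N
    · rw [indicator_of_mem hz, ENNReal.ofReal_mul (hκ.nonneg _)]
      gcongr
      exact (le_abs_self _).trans (hB z)
    · simp [kap0 hκ hz]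

end

end Pool.Agent.MP_fcd29e_an.H60
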