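import Pool.Agent.MP_fcd29e_an.H81.Spec

/-! Tools for the Poincaré inequality on the concave side. -/

set_option autoImplicit false

namespace Pool.Agent.MP_fcd29e_an.H60

open Pool.Agent.MP_fcd29e_an.H81 MeasureTheory Complex Set Filter Topology Metric
open scoped ContDiff ComplexConjugate ENNReal NNReal

noncomputable section

variable {N : ℕ}

/-- The weighted norm. -/
def IA (ρ : E N → ℝ) (κ : ℝ → ℝ) (k : ℕ) (u : E N → ℂ) : ℝ :=
  ∫ z in Op ρ, κ (‖z‖ ^ 2) * ρ z ^ (2 * k) * ‖u z‖ ^ 2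

/-- The weighted norm with values in the extended reals. -/
def JA (ρ : E N → ℝ) (κ : ℝ → ℝ) (k : ℕ) (u : E N → ℂ) : ℝ≥0∞ :=
  ∫⁻ z in Op ρ, ENNReal.ofReal (κ (‖z‖ ^ 2) * ρ z ^ (2 * k) * ‖u z‖ ^ 2)

theorem lsq {X : Type} [MeasurableSpace X] (ν : Measure X) (f : X → ℂ) :
    ∫⁻ x, ENNReal.ofReal (‖f x‖ ^ 2) ∂ν = eLpNorm f 2 ν ^ 2 := by
  have h := eLpNorm_nnreal_pow_eq_lintegral (f := f) (μ := ν) (p := 2) two_ne_zero
  simp only [ENNReal.coe_ofNat, NNReal.coe_ofNat, ENNReal.rpow_ofNat] at h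
  rw [h]
  refine lintegral_congr fun x => ?_
  rw [ENNReal.ofReal_pow (norm_nonneg _), ofReal_norm]

theorem tz {X : Type} [MeasurableSpace X] (ν : Measure X) (f : ℕ → X → ℂ) :
    Tendsto (fun i => ∫⁻ x, ENNReal.ofReal (‖f i x‖ ^ 2) ∂ν) atTop (𝓝 0) ↔
      Tendsto (fun i => eLpNorm (f i) 2 ν) atTop (𝓝 0) := by
  simp only [lsq]
  constructor
  · intro h
    have := ((ENNReal.continuous_rpow_const (y := (2 : ℝ)⁻¹)).tendsto 0).comp h
    rw [ENNReal.zero_rpow_of_pos (by norm_num)] at this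
    refine this.congr fun i => ?_
    exact ENNReal.pow_rpow_inv_natCast two_ne_zero _
  · intro h
    have := ((ENNReal.continuous_pow 2).tendsto 0).comp h
    rwa [zero_pow two_ne_zero] at this

theorem pair {K : Set (E N)} {f χ : E N → ℂ} {M : ℝ}
    (hf : AEStronglyMeasurable f (volume.restrict K)) (h0 : ∀ z ∉ K, χ z = 0)
    (hM : ∀ z, ‖χ z‖ ≤ M) :
    ‖∫ z, f z * χ z‖ₑ ≤
      ENNReal.ofReal M * volume K ^ (1 / 2 : ℝ) * eLpNorm f 2 (volume.restrict K) := by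
  rw [← setIntegral_eq_integral_of_forall_compl_eq_zero (s := K)
    (fun z hz => by rw [h0 z hz, mul_zero])]
  refine (enorm_integral_le_lintegral_enorm _).trans ?_
  have h1 : ∫⁻ z in K, ‖f z * χ z‖ₑ ≤ ∫⁻ z in K, ENNReal.ofReal M * ‖f z‖ₑ := by
    refine lintegral_mono fun z => ?_
    rw [enorm_mul, mul_comm]
    gcongr
    rw [← ofReal_norm]
    exact ENNReal.ofReal_le_ofReal (hM z)
  refine h1.trans ?_
  rw [lintegral_const_mul' _ _ ENNReal.ofReal_ne_top, mul_assoc, ← eLpNorm_one_eq_lintegral_enorm]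
  gcongr
  have := eLpNorm_le_eLpNorm_mul_rpow_measure_univ (p := 1) (q := 2) (by norm_num) hf
  rw [Measure.restrict_apply_univ, mul_comm] at this
  norm_num at this ⊢
  exact this

variable {ρ : E N → ℝ} {κ : ℝ → ℝ} {k : ℕ}

theorem kap0 (hκ : Kap κ) {z : E N} (hz : z ∉ Sh N) : κ (‖z‖ ^ 2) = 0 := by
  by_contra h
  exact hz ⟨(hκ.supp _ h).1.le, (hκ.supp _ h).2.le⟩

theorem kapc (hκ : Kap κ) : Continuous fun z : E N => κ (‖z‖ ^ 2) :=
  hκ.smooth.continuous.comp (by fun_prop)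

theorem intK (L : Lv0) (hκ : Kap κ) {X : Type} [NormedAddCommGroup X] [NormedSpace ℝ X]
    {F : E N → X} (hF : ContinuousOn F (E0 N)) : Integrable fun z => κ (‖z‖ ^ 2) • F z := by
  obtain ⟨-, -, h1, h2, -⟩ := (L.t3.2 N).1 κ hκ
  have h3 : ContinuousOn (fun z => κ (‖z‖ ^ 2) • F z) (Sh N) :=
    (kapc hκ).continuousOn.smul (hF.mono fun z hz h => h2 (h ▸ hz))
  exact (h3.integrableOn_compact h1).integrable_of_forall_notMem_eq_zero
    fun z hz => by rw [kap0 hκ hz, zero_smul]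

theorem intA (L : Lv0) (hρ : Dom ρ) (hκ : Kap κ) {u : E N → ℂ} (hu : ContinuousOn u (E0 N)) :
    IntegrableOn (fun z => κ (‖z‖ ^ 2) * ρ z ^ (2 * k) * ‖u z‖ ^ 2) (Op ρ) := by
  have := intK L hκ (F := fun z => ρ z ^ (2 * k) * ‖u z‖ ^ 2)
    ((hρ.smooth.continuousOn.pow _).mul (hu.norm.pow _))
  simp only [smul_eq_mul, ← mul_assoc] at this
  exact this.integrableOn

theorem gnn (hκ : Kap κ) (z : E N) : 0 ≤ κ (‖z‖ ^ 2) * ρ z ^ (2 * k) :=
  mul_nonneg (hκ.nonneg _) (by rw [pow_mul']; positivity)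

theorem IA_nn (hκ : Kap κ) (u : E N → ℂ) : 0 ≤ IA ρ κ k u :=
  integral_nonneg fun z => mul_nonneg (gnn hκ z) (by positivity)

theorem JA_eq (L : Lv0) (hρ : Dom ρ) (hκ : Kap κ) {u : E N → ℂ} (hu : ContinuousOn u (E0 N)) :
    JA ρ κ k u = ENNReal.ofReal (IA ρ κ k u) :=
  (ofReal_integral_eq_lintegral_ofReal (intA L hρ hκ hu)
    (ae_of_all _ fun z => mul_nonneg (gnn hκ z) (by positivity))).symm

theorem intB (L : Lv0) (hρ : Dom ρ) (hκ : Kap κ) {u : E N → ℂ} (hu : ContinuousOn u (E0 N)) :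
    IntegrableOn (fun z => ((κ (‖z‖ ^ 2) * ρ z ^ (2 * k) : ℝ) : ℂ) * u z) (Op ρ) := by
  have := intK L hκ (F := fun z => ρ z ^ (2 * k) • u z) ((hρ.smooth.continuousOn.pow _).smul hu)
  simp only [smul_smul] at this
  simp only [Complex.real_smul] at this
  exact this.integrableOn

theorem ortho (L : Lv0) (hρ : Dom ρ) (hκ : Kap κ) {u : E N → ℂ} (hu : ContinuousOn u (E0 N))
    (h0 : ∫ z in Op ρ, ((κ (‖z‖ ^ 2) * ρ z ^ (2 * k) : ℝ) : ℂ) * u z = 0) (d : ℂ) :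
    IA ρ κ k u ≤ IA ρ κ k fun z => u z - d := by
  have h1 := (intB (k := k) L hρ hκ hu).const_mul (2 * conj d)
  have h2 : ∫ z in Op ρ,
      RCLike.re (2 * conj d * (((κ (‖z‖ ^ 2) * ρ z ^ (2 * k) : ℝ) : ℂ) * u z)) = 0 := by
    rw [integral_re h1, integral_const_mul, h0, mul_zero, map_zero]
  have h3 := integral_sub (intA (k := k) L hρ hκ hu) h1.re
  rw [h2, sub_zero] at h3
  rw [IA, ← h3]
  refine integral_mono ((intA L hρ hκ hu).sub h1.re)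
    (intA L hρ hκ (hu.sub continuousOn_const)) fun z => ?_
  have h4 := gnn (ρ := ρ) (k := k) hκ z
  simp only
  generalize κ (‖z‖ ^ 2) * ρ z ^ (2 * k) = g at h4 ⊢
  rw [Complex.sq_norm, Complex.sq_norm]
  simp only [RCLike.re_to_complex, Complex.normSq_apply, mul_re, mul_im, sub_re, sub_im, conj_re,
    conj_im, ofReal_re, ofReal_im, re_ofNat, im_ofNat]
  nlinarith [mul_nonneg h4 (add_nonneg (mul_self_nonneg d.re) (mul_self_nonneg d.im))]

theorem best (L : Lv0) (hρ : Dom ρ) (hκ : Kap κ) {w : E N → ℂ} (hw : ContinuousOn w (E0 N)) :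
    ∃ c : ℂ, ∀ d : ℂ, IA ρ κ k (fun z => w z - c) ≤ IA ρ κ k fun z => w z - d := by
  have h1 := intB (k := k) L hρ hκ hw
  have h2 := intB (k := k) L hρ hκ (u := fun _ => 1) continuousOn_const
  simp only [mul_one] at h2
  obtain ⟨c, hc⟩ : ∃ c : ℂ,
      ∫ z in Op ρ, ((κ (‖z‖ ^ 2) * ρ z ^ (2 * k) : ℝ) : ℂ) * (w z - c) = 0 := by
    by_cases h : ∫ z in Op ρ, ((κ (‖z‖ ^ 2) * ρ z ^ (2 * k) : ℝ) : ℂ) = 0
    · refine ⟨0, ?_⟩
      rw [integral_complex_ofReal, ofReal_eq_zero,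
        integral_eq_zero_iff_of_nonneg (gnn hκ) (by simpa only [RCLike.re_to_complex, ofReal_re] using h2.re)] at h
      refine integral_eq_zero_of_ae (h.mono fun z hz => ?_)
      simp only [Pi.zero_apply] at hz ⊢
      rw [hz, ofReal_zero, zero_mul]
    · refine ⟨(∫ z in Op ρ, ((κ (‖z‖ ^ 2) * ρ z ^ (2 * k) : ℝ) : ℂ) * w z) /
        ∫ z in Op ρ, ((κ (‖z‖ ^ 2) * ρ z ^ (2 * k) : ℝ) : ℂ), ?_⟩
      simp only [mul_sub]
      rw [integral_sub h1 (h2.mul_const _), integral_mul_const, mul_div_cancel₀ _ h, sub_self]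
  refine ⟨c, fun d => ?_⟩
  have := ortho L hρ hκ (u := fun z => w z - c) (hw.sub continuousOn_const) hc (d - c)
  simpa only [sub_add_sub_cancel', sub_sub, add_sub_cancel] using this

theorem IA_mul (L : Lv0) (hρ : Dom ρ) {u v : E N → ℂ} (t : ℝ)
    (h : ∀ z, z ≠ 0 → u z = (t : ℂ) * v z) : IA ρ κ k u = t ^ 2 * IA ρ κ k v := by
  rw [IA, IA, ← integral_const_mul]
  refine setIntegral_congr_fun (L.c1 N ρ hρ).2.1.measurableSet fun z hz => ?_
  simp only [h z hz.1, norm_mul, Complex.norm_real, Real.norm_eq_abs, mul_pow, sq_abs]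
  ring

theorem hom_sub {U : Set (E N)} {j : ℕ} {w : E N → ℂ} (hw : Hom U (-j) 0 w) {c : ℂ}
    (hc : j ≠ 0 → c = 0) : Hom U (-j) 0 fun z => w z - c := by
  intro a ha z hz
  simp only [hw a ha z hz]
  by_cases hj : j = 0
  · simp [hj]
  · simp [hc hj]

theorem seq (L : Lv0) (hρ : Dom ρ) (hκ : Kap κ) (j : ℕ)
    (h : ¬ ∃ C : ℝ, 0 ≤ C ∧ ∀ w : E N → ℂ, ContDiffOn ℝ ∞ w (E0 N) → Hom (E0 N) (-j) 0 w →
      ∃ c : ℂ, (j ≠ 0 → c = 0) ∧ IA ρ κ k (fun z => w z - c) ≤ C * ∑ l, IA ρ κ k (dzb l w))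
    (i : ℕ) : ∃ u : E N → ℂ, ContDiffOn ℝ ∞ u (E0 N) ∧ Hom (E0 N) (-j) 0 u ∧ IA ρ κ k u = 1 ∧
      (∀ l, IA ρ κ k (dzb l u) ≤ 1 / ((i : ℝ) + 1)) ∧
      ∀ c : ℂ, (j ≠ 0 → c = 0) → 1 ≤ IA ρ κ k fun z => u z - c := by
  push Not at h
  obtain ⟨w, hw, hh, hlt⟩ := h ((i : ℝ) + 1) (by positivity)
  obtain ⟨c, hc, hb⟩ : ∃ c : ℂ, (j ≠ 0 → c = 0) ∧ ∀ d : ℂ, (j ≠ 0 → d = 0) →
      IA ρ κ k (fun z => w z - c) ≤ IA ρ κ k fun z => w z - d := by
    by_cases hj : j = 0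
    · obtain ⟨c, hc⟩ := best (k := k) L hρ hκ hw.continuousOn
      exact ⟨c, fun h => (h hj).elim, fun d _ => hc d⟩
    · exact ⟨0, fun _ => rfl, fun d hd => by rw [hd hj]⟩
  have h1 := hlt c hc
  have hB : 0 ≤ ∑ l, IA ρ κ k (dzb l w) := Finset.sum_nonneg fun l _ => IA_nn hκ _
  set A := IA ρ κ k fun z => w z - c with hA
  have hA0 : 0 < A := lt_of_le_of_lt (by positivity) h1
  have ht : 0 < √A := Real.sqrt_pos.2 hA0
  have ht2 : (√A)⁻¹ ^ 2 = A⁻¹ := by rw [inv_pow, Real.sq_sqrt hA0.le]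
  refine ⟨fun z => (((√A)⁻¹ : ℝ) : ℂ) * (w z - c), contDiffOn_const.mul (hw.sub contDiffOn_const),
    fun a ha z hz => ?_, ?_, fun l => ?_, fun d hd => ?_⟩
  · have := hom_sub hh hc a ha z hz
    simp only at this ⊢
    rw [this]; ring
  · rw [IA_mul L hρ (√A)⁻¹ (v := fun z => w z - c) fun _ _ => rfl, ht2, ← hA,
      inv_mul_cancel₀ hA0.ne']
  · rw [IA_mul L hρ (√A)⁻¹ (v := dzb l w) fun z hz => ?_, ht2]
    · have h2 : IA ρ κ k (dzb l w) ≤ ∑ l, IA ρ κ k (dzb l w) :=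
        Finset.single_le_sum (f := fun l => IA ρ κ k (dzb l w)) (fun l _ => IA_nn hκ _)
          (Finset.mem_univ l)
      rw [inv_mul_le_iff₀ hA0, mul_one_div, le_div_iff₀ (by positivity)]
      nlinarith
    · have hd : DifferentiableAt ℝ w z :=
        ContDiffAt.da (hw.contDiffAt (isOpen_E0.mem_nhds hz))
      rw [dzb_const_mul _ _ (hd.sub_const c), dzb_sub _ hd (differentiableAt_const c)]
      simp [dzb]
  · rw [IA_mul L hρ (√A)⁻¹ (v := fun z => w z - (c + √A * d)) fun z _ => ?_, ht2,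
      le_inv_mul_iff₀ hA0, mul_one]
    · exact hb _ fun hj => by rw [hc hj, hd hj]; simp
    · have : ((√A : ℝ) : ℂ) ≠ 0 := ofReal_ne_zero.2 ht.ne'
      push_cast
      field_simp
      ring

theorem loc1 (L : Lv0) (hρ : Dom ρ) (hκ : Kap κ) (a b : ℤ) {K : Set (E N)} (hK : IsCompact K)
    (h0 : (0 : E N) ∉ K) : ∃ C : ℝ≥0, ∀ u, Hom (E0 N) a b u →
      ∫⁻ z in Op ρ ∩ K, ENNReal.ofReal (‖(ρ z : ℂ) ^ k * u z‖ ^ 2) ≤ C * JA ρ κ k u := by
  obtain ⟨-, hO, -, hC, -⟩ := L.c1 N ρ hρ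
  obtain ⟨C, hC'⟩ := ((L.t3.2 N).1 κ hκ).2.2.2.2.1 (2 * (a + b)) K hK h0
  refine ⟨C, fun u hu => ?_⟩
  have h1 := hC' ((Op ρ).indicator fun z => ENNReal.ofReal (‖(ρ z : ℂ) ^ k * u z‖ ^ 2))
    fun r hr => ae_of_all _ fun z => ?_
  · rw [lintegral_indicator hO.measurableSet, Measure.restrict_restrict hO.measurableSet] at h1
    refine h1.trans (le_of_eq ?_)
    rw [JA, ← lintegral_indicator hO.measurableSet]
    refine congrArg _ (lintegral_congr fun z => ?_)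
    by_cases hz : z ∈ Op ρ
    · rw [indicator_of_mem hz, indicator_of_mem hz, ← ENNReal.ofReal_mul (hκ.nonneg _), norm_mul,
        norm_pow, Complex.norm_real, Real.norm_eq_abs, mul_pow, ← pow_mul, mul_comm k 2,
        abs_of_pos hz.2, mul_assoc]
    · rw [indicator_of_notMem hz, indicator_of_notMem hz, mul_zero]
  · have hr' : (r : ℂ) ≠ 0 := ofReal_ne_zero.2 hr.ne'
    rw [← Complex.coe_smul]
    by_cases hz : z ∈ Op ρ
    · rw [indicator_of_mem hz, indicator_of_mem (hC.2 _ hr' z hz), hρ.inv _ hr', hu _ hr' z hz.1,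
        ← ENNReal.ofReal_mul (zpow_nonneg hr.le _)]
      congr 1
      simp only [norm_mul, norm_zpow, RCLike.norm_conj, Complex.norm_real, Real.norm_eq_abs,
        abs_of_pos hr]
      rw [← zpow_add₀ hr.ne', mul_comm 2 (a + b), zpow_mul, zpow_ofNat]
      ring
    · rw [indicator_of_notMem hz, indicator_of_notMem, mul_zero]
      intro h
      have := hC.2 _ (inv_ne_zero hr') _ h
      rw [inv_smul_smul₀ hr'] at this
      exact hz this

theorem loc2 (L : Lv0) (hρ : Dom ρ) (hκ : Kap κ) (a b : ℤ) {K : Set (E N)} (hK : IsCompact K)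
    (h0 : K ⊆ Op ρ) : ∃ C : ℝ≥0, ∀ u, Hom (E0 N) a b u →
      ∫⁻ z in K, ENNReal.ofReal (‖u z‖ ^ 2) ≤ C * JA ρ κ k u := by
  obtain ⟨C, hC⟩ := loc1 (k := k) L hρ hκ a b hK fun h => (h0 h).1 rfl
  obtain ⟨B, hB⟩ := hK.exists_bound_of_continuousOn (f := fun z => ((ρ z : ℂ) ^ k)⁻¹)
    (((continuous_ofReal.comp_continuousOn (hρ.smooth.continuousOn.mono fun z hz => (h0 hz).1)).pow
      k).inv₀ fun z hz => pow_ne_zero _ (ofReal_ne_zero.2 (h0 hz).2.ne'))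
  refine ⟨Real.toNNReal (B ^ 2) * C, fun u hu => ?_⟩
  have h1 := hC u hu
  rw [inter_eq_right.2 h0] at h1
  rw [ENNReal.coe_mul, mul_assoc]
  refine le_trans ?_ (mul_le_mul_right h1 _)
  rw [← lintegral_const_mul' _ _ ENNReal.coe_ne_top]
  refine setLIntegral_mono' hK.measurableSet fun z hz => ?_
  change _ ≤ ENNReal.ofReal (B ^ 2) * _
  rw [← ENNReal.ofReal_mul (sq_nonneg _), ← mul_pow]
  refine ENNReal.ofReal_le_ofReal (pow_le_pow_left₀ (norm_nonneg _) ?_ 2)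
  have h2 : u z = ((ρ z : ℂ) ^ k)⁻¹ * ((ρ z : ℂ) ^ k * u z) :=
    (inv_mul_cancel_left₀ (pow_ne_zero _ (ofReal_ne_zero.2 (h0 hz).2.ne')) _).symm
  calc ‖u z‖ = ‖((ρ z : ℂ) ^ k)⁻¹‖ * ‖(ρ z : ℂ) ^ k * u z‖ := by rw [← norm_mul, ← h2]
    _ ≤ _ := mul_le_mul_of_nonneg_right (hB z hz) (norm_nonneg _)

end

end Pool.Agent.MP_fcd29e_an.H60
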