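import Pool.Agent.MP_fcd29e_an.H60.POIa

/-! The weak limit. -/

set_option autoImplicit false

namespace Pool.Agent.MP_fcd29e_an.H60

open Pool.Agent.MP_fcd29e_an.H81 MeasureTheory Complex Set Filter Topology Metric
open scoped ContDiff ComplexConjugate ENNReal NNReal

noncomputable section

variable {N : ℕ} {ρ : E N → ℝ} {κ : ℝ → ℝ} {k : ℕ}

theorem kapB (L : Lv0) (hκ : Kap κ) : ∃ B : ℝ, ∀ z : E N, ‖κ (‖z‖ ^ 2)‖ ≤ B := by
  obtain ⟨-, -, h1, -⟩ := (L.t3.2 N).1 κ hκ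
  exact (kapc hκ).bounded_above_of_compact_support
    (HasCompactSupport.intro h1 fun z hz => kap0 hκ hz)

theorem test0 {U : Set (E N)} {ψ : E N → ℂ} (h : Test U ψ) {z : E N} (hz : z ∉ U) : ψ z = 0 :=
  image_eq_zero_of_notMem_tsupport fun h' => hz (h.2.2 h')

theorem dual (L : Lv0) (hρ : Dom ρ) (hκ : Kap κ) (a b : ℤ) {g ψ : E N → ℂ}
    (hg : MemLp g 2 (volume.restrict (Op ρ ∩ Sh N))) (hψ : Test (E0 N) ψ) :
    ∫ z, Hop κ a b ((Op ρ ∩ Sh N).indicator g) z * ψ z =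
      ∫ z in Op ρ ∩ Sh N, g z * ((κ (‖z‖ ^ 2) : ℂ) * Pp (-a - N) (-b - N) ψ z) := by
  obtain ⟨-, -, h1, h2, -⟩ := (L.t3.2 N).1 κ hκ
  have hS : MeasurableSet (Op ρ ∩ Sh N) :=
    (L.c1 N ρ hρ).2.1.measurableSet.inter h1.measurableSet
  have : IsFiniteMeasure (volume.restrict (Op ρ ∩ Sh N)) :=
    isFiniteMeasure_restrict.2 ((measure_mono inter_subset_right).trans_lt h1.measure_lt_top).ne
  obtain ⟨B, hB⟩ := kapB (N := N) L hκ
  have h3 : Integrable fun z : E N => (κ (‖z‖ ^ 2) : ℂ) * (Op ρ ∩ Sh N).indicator g z :=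
    ((integrable_indicator_iff hS).2 (hg.integrable one_le_two)).bdd_mul (c := B)
      (continuous_ofReal.comp (kapc hκ)).aestronglyMeasurable
      (ae_of_all _ fun z => by simpa using hB z)
  rw [Hop, (L.t4 N a b).2.2.2.1 _ ψ _ h1 h2 (fun z hz => by rw [kap0 hκ hz]; simp) h3 hψ,
    ← integral_indicator hS]
  refine integral_congr_ae (ae_of_all _ fun z => ?_)
  by_cases hz : z ∈ Op ρ ∩ Sh N
  · simp only [indicator_of_mem hz]; ring
  · simp only [indicator_of_notMem hz]; ring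

theorem repro (L : Lv0) (hN : 1 ≤ N) (hρ : Dom ρ) (hκ : Kap κ) (a b : ℤ) {f : E N → ℂ}
    (hf : ContinuousOn f (E0 N)) (hh : Hom (E0 N) a b f) :
    ∀ᵐ z, Hop κ a b ((Op ρ ∩ Sh N).indicator f) z = (Op ρ).indicator f z := by
  obtain ⟨-, hO, -, hC, -⟩ := L.c1 N ρ hρ
  have h1 : Hop κ a b ((Op ρ ∩ Sh N).indicator f) = Hop κ a b ((Op ρ).indicator f) := by
    rw [Hop, Hop]
    refine congrArg _ (funext fun z => ?_)
    by_cases hz : z ∈ Sh N
    · by_cases h : z ∈ Op ρ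
      · rw [indicator_of_mem h, indicator_of_mem (mem_inter h hz)]
      · rw [indicator_of_notMem h, indicator_of_notMem fun h' => h h'.1]
    · rw [kap0 hκ hz]; simp
  rw [h1]
  refine ((L.t4 N a b).2.2.2.2 κ hκ _ ((aestronglyMeasurable_indicator_iff hO.measurableSet).2
    ((hf.mono fun z hz => hz.1).aestronglyMeasurable hO.measurableSet))).2.1 hN
    (((L.t2 N a b).1 _ isOpen_E0 cone_E0).1 _ fun c hc z hz => ?_)
  by_cases h : z ∈ Op ρ
  · rw [indicator_of_mem h, indicator_of_mem (hC.2 _ hc z h), hh c hc z hz]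
  · rw [indicator_of_notMem h, indicator_of_notMem, mul_zero]
    intro h'
    have := hC.2 _ (inv_ne_zero hc) _ h'
    rw [inv_smul_smul₀ hc] at this
    exact h this

theorem weak (L : Lv0) (hN : 1 ≤ N) (hρ : Dom ρ) (hκ : Kap κ) (a : ℤ) (u : ℕ → E N → ℂ)
    (hu : ∀ i, ContinuousOn (u i) (E0 N)) (hh : ∀ i, Hom (E0 N) a 0 (u i))
    (h1 : ∀ i, JA ρ κ k (u i) ≤ 1) :
    ∃ (W : E N → ℂ) (s : ℕ → ℕ), StrictMono s ∧ LocallyIntegrableOn W (Op ρ) ∧
      Hom (Op ρ) a 0 W ∧ L2 (Op ρ) (fun z => (ρ z : ℂ) ^ k * W z) ∧ ∀ χ, Test (Op ρ) χ →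
        Tendsto (fun i => ∫ z in Op ρ, u (s i) z * χ z) atTop (𝓝 (∫ z in Op ρ, W z * χ z)) := by
  obtain ⟨-, -, hS1, hS2, -⟩ := (L.t3.2 N).1 κ hκ
  obtain ⟨-, hO, -, hC, -⟩ := L.c1 N ρ hρ
  have hS : MeasurableSet (Op ρ ∩ Sh N) := hO.measurableSet.inter hS1.measurableSet
  have : IsFiniteMeasure (volume.restrict (Op ρ ∩ Sh N)) :=
    isFiniteMeasure_restrict.2 ((measure_mono inter_subset_right).trans_lt hS1.measure_lt_top).ne
  have T := L.t1 N _ hO hC.1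
  have T0 := L.t1 N _ isOpen_E0 cone_E0.1
  have hρc : ContDiffOn ℝ ∞ (fun z => (ρ z : ℂ) ^ k) (E0 N) :=
    (ofRealCLM.contDiff.comp_contDiffOn hρ.smooth).pow k
  have hne : ∀ z ∈ Op ρ, (ρ z : ℂ) ^ k ≠ 0 := fun z hz =>
    pow_ne_zero _ (ofReal_ne_zero.2 hz.2.ne')
  have hinv : ContDiffOn ℝ ∞ (fun z => ((ρ z : ℂ) ^ k)⁻¹) (Op ρ) :=
    (hρc.mono fun z hz => hz.1).inv hne
  have hf : ∀ i, ContinuousOn (fun z => (ρ z : ℂ) ^ k * u i z) (E0 N) := fun i =>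
    hρc.continuousOn.mul (hu i)
  have hm : ∀ {f : E N → ℂ}, ContinuousOn f (E0 N) →
      MemLp f 2 (volume.restrict (Op ρ ∩ Sh N)) := fun hf => T.2.2.1 _ hf _ hS1 hS2
  obtain ⟨C, hC1⟩ := loc1 (k := k) L hρ hκ a 0 hS1 hS2
  obtain ⟨g, s, hs, hg1, hg2, hlim⟩ := L.rz.2 N (volume.restrict (Op ρ ∩ Sh N))
    (fun i z => (ρ z : ℂ) ^ k * u i z) C fun i => ⟨hm (hf i), by
      rw [← ENNReal.ofReal_le_coe, ofReal_integral_eq_lintegral_ofReal
        ((memLp_two_iff_integrable_sq_norm (hm (hf i)).1).1 (hm (hf i)))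
        (ae_of_all _ fun z => by positivity)]
      exact (hC1 _ (hh i)).trans (by simpa using mul_le_mul_right (h1 i) (C : ℝ≥0∞))⟩
  obtain ⟨B, hB⟩ := kapB (N := N) L hκ
  have hg3 : MemLp ((Op ρ ∩ Sh N).indicator g) 2 volume := (memLp_indicator_iff_restrict hS).2 hg2
  have hH : L2 (E0 N) (Hop κ a 0 ((Op ρ ∩ Sh N).indicator g)) :=
    ((L.t4 N a 0).2.2.2.2 κ hκ _ hg3.1).2.2
      ((((memLp_two_iff_integrable_sq_norm hg3.1).1 hg3).bdd_mul (c := B)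
        (kapc hκ).aestronglyMeasurable (ae_of_all _ hB)).lintegral_lt_top)
  have hH' := (T0.1 _ hH).2.2.2.2.2.2 (Op ρ) fun z hz => hz.1
  have hHh : Hom (E0 N) a 0 (Hop κ a 0 ((Op ρ ∩ Sh N).indicator g)) := (L.t4 N a 0).1 _
  generalize hdef : Hop κ a 0 ((Op ρ ∩ Sh N).indicator g) = H at hH hH' hHh
  refine ⟨fun z => ((ρ z : ℂ) ^ k)⁻¹ * H z, s, hs,
    (T.1 _ hH').1.continuousOn_mul hinv.continuousOn hO.isLocallyClosed, fun c hc z hz => ?_,
    (T.1 _ hH').2.2.2.2.2.1 _ (ae_of_all _ fun z hz => (mul_inv_cancel_left₀ (hne z hz) _).symm),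
    fun χ hχ => ?_⟩
  · simp only [hρ.inv c hc, hHh c hc z hz.1]; ring
  · have hψ := (T.2.2.2.1 χ hχ).1 _ hinv
    have hψ0 := (T.2.2.2.1 _ hψ).2.2.2.2.2 (E0 N) fun z hz => hz.1
    have h2 := hlim _ (hm ((continuous_ofReal.comp (kapc hκ)).continuousOn.mul
      ((L.t4 N (-a - N) (-0 - N)).2.2.1 _ hψ0).1.continuousOn))
    have h3 := dual L hρ hκ a 0 hg2 hψ0
    rw [hdef, ← setIntegral_eq_integral_of_forall_compl_eq_zero (s := Op ρ)
      (fun z hz => by rw [test0 hχ hz]; simp)] at h3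
    have h4 : ∫ z in Op ρ, ((ρ z : ℂ) ^ k)⁻¹ * H z * χ z =
        ∫ z in Op ρ, H z * (((ρ z : ℂ) ^ k)⁻¹ * χ z) :=
      integral_congr_ae (ae_of_all _ fun z => by ring)
    rw [h4, h3]
    refine h2.congr fun i => ?_
    refine (dual L hρ hκ a 0 (hm (hf (s i))) hψ0).symm.trans ?_
    have h5 := repro L hN hρ hκ a 0 (hf (s i)) fun c hc z hz => by
      simp only [hρ.inv c hc, hh _ c hc z hz]; ring
    rw [← integral_indicator hO.measurableSet]
    refine integral_congr_ae (h5.mono fun z hz => ?_)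
    simp only [hz]
    by_cases h : z ∈ Op ρ
    · simp only [indicator_of_mem h]
      field_simp [hne z h]
    · simp only [indicator_of_notMem h, zero_mul]

end

end Pool.Agent.MP_fcd29e_an.H60
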